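import Pool.Agent.Helper5.BD.Defs

/-!
# Project BD, module D2: averaging over colourings; orientation of degenerate families
-/

noncomputable section

open Finset Helper5.CR Classical

namespace Helper5.BD

variable {V E X : Type} [Fintype V] [Fintype E] [Fintype X] {C : CSys V E X} {d : ℕ}

section D2

private lemma card_three_D2 (a b c : V) (h1 : a ≠ b) (h2 : a ≠ c) (h3 : b ≠ c) :
    (univ.filter (fun col : V → Bool => col a = true ∧ col b = false ∧ col c = false)).card * 8 =
      2 ^ Fintype.card V := by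
  have h := card_col_fixed ({a, b, c} : Finset V) (fun v => decide (v = a))
  have hc : ({a, b, c} : Finset V).card = 3 := by
    rw [Finset.card_insert_of_notMem, Finset.card_insert_of_notMem, Finset.card_singleton]
    · simpa using h3
    · simp [h1, h2]
  rw [hc] at h
  have e : (univ.filter (fun col : V → Bool => col a = true ∧ col b = false ∧ col c = false)) =
      (univ.filter (fun col : V → Bool =>
        ∀ v ∈ ({a, b, c} : Finset V), col v = decide (v = a))) := by
    ext col
    simp only [mem_filter, mem_univ, true_and, mem_insert, mem_singleton, forall_eq_or_imp,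
      forall_eq]
    have e1 : decide (b = a) = false := by simp [h1.symm]
    have e2 : decide (c = a) = false := by simp [h2.symm]
    rw [e1, e2]
    simp
  rw [e]
  have h8 : (2 : ℕ) ^ 3 = 8 := by norm_num
  rw [h8] at h
  exact h

theorem exists_hub_col {ι : Type} [Fintype ι] (w : ι → ℝ) (hw : ∀ i, 0 ≤ w i) (a b c : ι → V)
    (h1 : ∀ i, a i ≠ b i) (h2 : ∀ i, a i ≠ c i) (h3 : ∀ i, b i ≠ c i) :
    ∃ col : V → Bool, ∑ i, w i ≤
      8 * ∑ i, if col (a i) = true ∧ col (b i) = false ∧ col (c i) = false then w i else 0 := by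
  by_contra hcon
  push Not at hcon
  have hlt : ∑ col : V → Bool, (8 * ∑ i, if col (a i) = true ∧ col (b i) = false ∧
      col (c i) = false then w i else 0) < ∑ _col : V → Bool, ∑ i, w i :=
    Finset.sum_lt_sum_of_nonempty univ_nonempty (fun col _ => hcon col)
  rw [← Finset.mul_sum, Finset.sum_comm, Finset.sum_const, nsmul_eq_mul] at hlt
  have hcard : ((univ : Finset (V → Bool)).card : ℝ) = 2 ^ Fintype.card V := by
    simp
  have hi : ∀ i, ∑ col : V → Bool, (if col (a i) = true ∧ col (b i) = false ∧
      col (c i) = false then w i else 0) =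
      ((univ.filter (fun col : V → Bool =>
        col (a i) = true ∧ col (b i) = false ∧ col (c i) = false)).card : ℝ) * w i := by
    intro i
    rw [← Finset.sum_filter, Finset.sum_const, nsmul_eq_mul]
  rw [Finset.sum_congr rfl (fun i _ => hi i), hcard] at hlt
  have e8 : (8 : ℝ) * ∑ i, ((univ.filter (fun col : V → Bool =>
        col (a i) = true ∧ col (b i) = false ∧ col (c i) = false)).card : ℝ) * w i =
      2 ^ Fintype.card V * ∑ i, w i := by
    rw [Finset.mul_sum, Finset.mul_sum]
    refine Finset.sum_congr rfl (fun i _ => ?_)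
    have := card_three_D2 (a i) (b i) (c i) (h1 i) (h2 i) (h3 i)
    have h' : ((univ.filter (fun col : V → Bool =>
        col (a i) = true ∧ col (b i) = false ∧ col (c i) = false)).card : ℝ) * 8 =
        2 ^ Fintype.card V := by exact_mod_cast this
    rw [← h']
    ring
  rw [e8] at hlt
  exact lt_irrefl _ hlt

private lemma orient_aux_D2 {ι : Type} [Fintype ι] (b c : ι → V) (k : ℕ)
    (h : ∀ J : Finset ι, J.Nonempty → ∃ v,
      1 ≤ (J.filter (fun i => b i = v ∨ c i = v)).card ∧
      (J.filter (fun i => b i = v ∨ c i = v)).card ≤ k) (n : ℕ) :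
    ∀ J : Finset ι, J.card ≤ n →
    ∃ Γ : V → V → Prop, (∀ u, (univ.filter (fun v => Γ u v)).card ≤ k) ∧
      (∀ i ∈ J, Γ (b i) (c i) ∨ Γ (c i) (b i)) ∧
      ∀ u v, Γ u v → ∃ i ∈ J, (b i = u ∧ c i = v) ∨ (b i = v ∧ c i = u) := by
  induction n with
  | zero =>
    intro J hJ
    have hJ0 : J = ∅ := Finset.card_eq_zero.mp (Nat.le_zero.mp hJ)
    subst hJ0
    exact ⟨fun _ _ => False, by simp, by simp, by simp⟩
  | succ n ih =>
    intro J hJ
    rcases J.eq_empty_or_nonempty with hJ0 | hJ0
    · subst hJ0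
      exact ⟨fun _ _ => False, by simp, by simp, by simp⟩
    obtain ⟨v, hv1, hv2⟩ := h J hJ0
    have hcard : (J.filter (fun i => ¬ (b i = v ∨ c i = v))).card ≤ n := by
      have := Finset.card_filter_add_card_filter_not (s := J) (fun i => b i = v ∨ c i = v)
      omega
    obtain ⟨G, hG1, hG2, hG3⟩ := ih _ hcard
    obtain ⟨Q, hQ⟩ : ∃ Q : V → V → Prop, ∀ u w, Q u w ↔ (G u w ∨ (u = v ∧ ∃ i ∈ J,
        (b i = v ∧ c i = w) ∨ (c i = v ∧ b i = w))) := ⟨_, fun _ _ => Iff.rfl⟩
    refine ⟨Q, ?_, ?_, ?_⟩
    · intro u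
      by_cases hu : u = v
      · subst hu
        refine le_trans (Finset.card_le_card (t := (J.filter (fun i => b i = u ∨ c i = u)).image
          (fun i => if b i = u then c i else b i)) ?_) (le_trans Finset.card_image_le hv2)
        intro w hw
        rw [mem_image]
        rcases (hQ _ _).mp (Finset.mem_filter.mp hw).2 with hw | ⟨_, i, hi, hw⟩
        · exfalso
          obtain ⟨i, hi, hw⟩ := hG3 _ _ hw
          rw [mem_filter] at hi
          rcases hw with hw | hw
          · exact hi.2 (Or.inl hw.1)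
          · exact hi.2 (Or.inr hw.2)
        · refine ⟨i, ?_, ?_⟩
          · rw [mem_filter]
            refine ⟨hi, ?_⟩
            rcases hw with hw | hw
            · exact Or.inl hw.1
            · exact Or.inr hw.1
          · rcases hw with hw | hw
            · rw [if_pos hw.1]
              exact hw.2
            · by_cases hb : b i = u
              · rw [if_pos hb, hw.1, ← hb, hw.2]
              · rw [if_neg hb]
                exact hw.2
      · refine le_trans (Finset.card_le_card ?_) (hG1 u)
        intro w hw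
        refine Finset.mem_filter.mpr ⟨mem_univ _, ?_⟩
        rcases (hQ _ _).mp (Finset.mem_filter.mp hw).2 with hw | hw
        · exact hw
        · exact absurd hw.1 hu
    · intro i hi
      rw [hQ, hQ]
      by_cases h1 : b i = v
      · exact Or.inl (Or.inr ⟨h1, i, hi, Or.inl ⟨h1, rfl⟩⟩)
      · by_cases h2 : c i = v
        · exact Or.inr (Or.inr ⟨h2, i, hi, Or.inr ⟨h2, rfl⟩⟩)
        · have hi' : i ∈ J.filter (fun i => ¬ (b i = v ∨ c i = v)) := by
            rw [mem_filter]
            exact ⟨hi, fun h => h.elim h1 h2⟩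
          rcases hG2 i hi' with h | h
          · exact Or.inl (Or.inl h)
          · exact Or.inr (Or.inl h)
    · intro u w huw
      rcases (hQ _ _).mp huw with huw | ⟨hu, i, hi, hw⟩
      · obtain ⟨i, hi, hw⟩ := hG3 _ _ huw
        exact ⟨i, (mem_filter.mp hi).1, hw⟩
      · refine ⟨i, hi, ?_⟩
        rcases hw with hw | hw
        · exact Or.inl ⟨hw.1.trans hu.symm, hw.2⟩
        · exact Or.inr ⟨hw.2, hw.1.trans hu.symm⟩

theorem degenerate_orient {ι : Type} [Fintype ι] (b c : ι → V) (k : ℕ)
    (h : ∀ J : Finset ι, J.Nonempty → ∃ v,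
      1 ≤ (J.filter (fun i => b i = v ∨ c i = v)).card ∧
      (J.filter (fun i => b i = v ∨ c i = v)).card ≤ k) :
    ∃ Γ : V → V → Prop, (∀ u, (univ.filter (fun v => Γ u v)).card ≤ k) ∧
      (∀ i, Γ (b i) (c i) ∨ Γ (c i) (b i)) ∧
      ∀ u v, Γ u v → ∃ i, (b i = u ∧ c i = v) ∨ (b i = v ∧ c i = u) := by
  obtain ⟨G, h1, h2, h3⟩ := orient_aux_D2 b c k h _ (univ : Finset ι) le_rfl
  refine ⟨G, h1, fun i => h2 i (mem_univ i), fun u v huv => ?_⟩
  obtain ⟨i, -, hi⟩ := h3 u v huv
  exact ⟨i, hi⟩

end D2

end Helper5.BD
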