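import Pool.Agent.Helper5.BD.Defs

/-!
# Module D5: the conflict sum
-/

noncomputable section

open Finset Helper5.CR Classical

namespace Helper5.BD

variable {V E X : Type} [Fintype V] [Fintype E] [Fintype X] {C : CSys V E X} {d : ℕ}

private lemma d5_min (O : Ori C d) (hw : ∀ p, O.w p ≤ (O.com p).card ^ 2) (p p' : V × V) :
    min (O.w p : ℝ) (O.w p') ≤
      ((max 1 (O.com p).card : ℕ) * (max 1 (O.com p').card : ℕ) : ℝ) := by
  have h1 : O.w p ≤ (max 1 (O.com p).card) ^ 2 :=
    (hw p).trans (Nat.pow_le_pow_left (le_max_right _ _) 2)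
  have h2 : O.w p' ≤ (max 1 (O.com p').card) ^ 2 :=
    (hw p').trans (Nat.pow_le_pow_left (le_max_right _ _) 2)
  generalize max 1 (O.com p).card = x at *
  generalize max 1 (O.com p').card = y at *
  rcases le_total x y with h | h
  · have h3 : O.w p ≤ x * y := h1.trans (by rw [pow_two]; exact Nat.mul_le_mul_left x h)
    exact (min_le_left _ _).trans (by exact_mod_cast h3)
  · have h3 : O.w p' ≤ x * y := h2.trans (by rw [pow_two]; exact Nat.mul_le_mul_right y h)
    exact (min_le_right _ _).trans (by exact_mod_cast h3)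

/-- D5. -/
theorem conflict_bound (O : Ori C d) (S : V × V → Finset V) (hS : ∀ p, S p ⊆ O.com p)
    (hw : ∀ p, O.w p ≤ (O.com p).card ^ 2)
    (hsum : ∑ p, O.w p = Ori.cnt (fun x => O.AB x))
    (h1 : (univ.filter (fun q : (V × V) × (V × V) × V =>
      q.2.2 ∈ O.com q.1 ∧ q.2.2 ∈ O.com q.2.1)).card ≤ d ^ 4 * Fintype.card E)
    (h2 : (univ.filter (fun q : ((V × V) × V) × ((V × V) × V) => q.1.2 ∈ O.com q.1.1 ∧
      q.2.2 ∈ O.com q.2.1 ∧ ∃ e f, O.uses q.1.1 q.1.2 e ∧ O.uses q.2.1 q.2.2 f ∧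
        Ori.crs C e f)).card ≤ 8 * d ^ 2 * Fintype.card X)
    (hm : d ^ 4 * Fintype.card E ≤ Fintype.card X) :
    ∑ p, ∑ p' ∈ univ.erase p, ∑ a ∈ S p, ∑ b ∈ S p',
      (if O.Rel p a p' b then min (O.w p : ℝ) (O.w p') /
        ((max 1 (O.com p).card : ℕ) * (max 1 (O.com p').card : ℕ)) else 0) ≤
      (8 * d ^ 2 + 2) * Fintype.card X := by
  obtain ⟨c, hc⟩ : ∃ c : V × V → ℝ, ∀ p, c p = ((max 1 (O.com p).card : ℕ) : ℝ) :=
    ⟨_, fun _ => rfl⟩
  have hcpos : ∀ p, 0 < c p := fun p => by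
    rw [hc]
    exact_mod_cast lt_of_lt_of_le Nat.one_pos (le_max_left _ _)
  have hSc : ∀ p, ((S p).card : ℝ) ≤ c p := fun p => by
    rw [hc]
    exact_mod_cast (card_le_card (hS p)).trans (le_max_right _ _)
  have hmin : ∀ p p', min (O.w p : ℝ) (O.w p') ≤ c p * c p' := fun p p' => by
    rw [hc, hc]; exact d5_min O hw p p'
  have hmin0 : ∀ p p', 0 ≤ min (O.w p : ℝ) (O.w p') := fun p p' => by positivity
  have hdiv : ∀ p p', min (O.w p : ℝ) (O.w p') / (c p * c p') ≤ 1 := fun p p' => by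
    rw [div_le_one (mul_pos (hcpos p) (hcpos p'))]
    exact hmin p p'
  have hdiv0 : ∀ p p', 0 ≤ min (O.w p : ℝ) (O.w p') / (c p * c p') := fun p p' =>
    div_nonneg (hmin0 p p') (mul_pos (hcpos p) (hcpos p')).le
  simp_rw [← hc]
  obtain ⟨P, hP⟩ : ∃ P : V × V → V → V × V → V → Prop, ∀ p a p' b, P p a p' b ↔
      ∃ e f, O.uses p a e ∧ O.uses p' b f ∧ Ori.crs C e f := ⟨_, fun _ _ _ _ => Iff.rfl⟩
  -- the pointwise bound
  have hpt : ∀ p p' a b, (if O.Rel p a p' b then min (O.w p : ℝ) (O.w p') / (c p * c p') else 0) ≤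
      (if a = b then (1 : ℝ) else 0) +
        ((if p' = p.swap then min (O.w p : ℝ) (O.w p') / (c p * c p') else 0) +
          (if P p a p' b then (1 : ℝ) else 0)) := by
    intro p p' a b
    have e0 : (0 : ℝ) ≤ (if a = b then (1 : ℝ) else 0) := by split_ifs <;> norm_num
    have e1 : (0 : ℝ) ≤ (if p' = p.swap then min (O.w p : ℝ) (O.w p') / (c p * c p') else 0) := by
      split_ifs
      · exact hdiv0 p p'
      · exact le_rfl
    have e2 : (0 : ℝ) ≤ (if P p a p' b then (1 : ℝ) else 0) := by split_ifs <;> norm_num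
    by_cases hR : O.Rel p a p' b
    · rw [if_pos hR]
      rcases hR with h | h | h
      · rw [if_pos h]
        linarith [hdiv p p']
      · rw [if_pos h]
        linarith
      · rw [if_pos ((hP p a p' b).mpr h)]
        linarith [hdiv p p']
    · rw [if_neg hR]
      linarith
  have hsplit : ∑ p, ∑ p' ∈ univ.erase p, ∑ a ∈ S p, ∑ b ∈ S p',
      (if O.Rel p a p' b then min (O.w p : ℝ) (O.w p') / (c p * c p') else 0) ≤
      (∑ p, ∑ p' ∈ univ.erase p, ∑ a ∈ S p, ∑ b ∈ S p', (if a = b then (1 : ℝ) else 0)) +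
      ((∑ p, ∑ p' ∈ univ.erase p, ∑ a ∈ S p, ∑ b ∈ S p',
        (if p' = p.swap then min (O.w p : ℝ) (O.w p') / (c p * c p') else 0)) +
      (∑ p, ∑ p' ∈ univ.erase p, ∑ a ∈ S p, ∑ b ∈ S p', (if P p a p' b then (1 : ℝ) else 0))) := by
    simp only [← Finset.sum_add_distrib]
    exact sum_le_sum fun p _ => sum_le_sum fun p' _ => sum_le_sum fun a _ =>
      sum_le_sum fun b _ => hpt p p' a b
  have hN : (0 : ℝ) ≤ Fintype.card X := by positivity
  -- first term
  have T1 : ∑ p, ∑ p' ∈ univ.erase p, ∑ a ∈ S p, ∑ b ∈ S p', (if a = b then (1 : ℝ) else 0) ≤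
      Fintype.card X := by
    have h3 : ∑ p, ∑ p' ∈ univ.erase p, ∑ a ∈ S p, ∑ b ∈ S p', (if a = b then (1 : ℝ) else 0) ≤
        ∑ p : V × V, ∑ p' : V × V, ∑ a : V,
          (if a ∈ O.com p ∧ a ∈ O.com p' then (1 : ℝ) else 0) := by
      refine sum_le_sum fun p _ => ?_
      refine (sum_le_sum_of_subset_of_nonneg (subset_univ _) fun p' _ _ =>
        sum_nonneg fun a _ => sum_nonneg fun b _ => by split_ifs <;> norm_num).trans ?_
      refine sum_le_sum fun p' _ => ?_
      have h4 : ∑ a ∈ S p, ∑ b ∈ S p', (if a = b then (1 : ℝ) else 0) ≤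
          ∑ a ∈ S p, (if a ∈ O.com p ∧ a ∈ O.com p' then (1 : ℝ) else 0) := by
        refine sum_le_sum fun a ha => ?_
        rw [sum_ite_eq]
        by_cases hb : a ∈ S p'
        · rw [if_pos hb, if_pos ⟨hS p ha, hS p' hb⟩]
        · rw [if_neg hb]
          split_ifs <;> norm_num
      exact h4.trans (sum_le_sum_of_subset_of_nonneg (subset_univ _) fun a _ _ => by
        split_ifs <;> norm_num)
    refine h3.trans ?_
    have h5 : ∑ p : V × V, ∑ p' : V × V, ∑ a : V,
          (if a ∈ O.com p ∧ a ∈ O.com p' then (1 : ℝ) else 0) =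
        (((univ.filter (fun q : (V × V) × (V × V) × V =>
          q.2.2 ∈ O.com q.1 ∧ q.2.2 ∈ O.com q.2.1)).card : ℕ) : ℝ) := by
      rw [card_filter]
      push_cast
      simp only [Fintype.sum_prod_type]
    rw [h5]
    exact_mod_cast h1.trans hm
  -- third term
  have T3 : ∑ p, ∑ p' ∈ univ.erase p, ∑ a ∈ S p, ∑ b ∈ S p', (if P p a p' b then (1 : ℝ) else 0) ≤
      8 * d ^ 2 * Fintype.card X := by
    have h3 : ∑ p, ∑ p' ∈ univ.erase p, ∑ a ∈ S p, ∑ b ∈ S p',
          (if P p a p' b then (1 : ℝ) else 0) ≤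
        ∑ p : V × V, ∑ p' : V × V, ∑ a : V, ∑ b : V,
          (if a ∈ O.com p ∧ b ∈ O.com p' ∧ P p a p' b then (1 : ℝ) else 0) := by
      refine sum_le_sum fun p _ => ?_
      refine (sum_le_sum_of_subset_of_nonneg (subset_univ _) fun p' _ _ =>
        sum_nonneg fun a _ => sum_nonneg fun b _ => by split_ifs <;> norm_num).trans ?_
      refine sum_le_sum fun p' _ => ?_
      have h4 : ∑ a ∈ S p, ∑ b ∈ S p', (if P p a p' b then (1 : ℝ) else 0) ≤
          ∑ a ∈ S p, ∑ b : V, (if a ∈ O.com p ∧ b ∈ O.com p' ∧ P p a p' b then (1 : ℝ) else 0) := by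
        refine sum_le_sum fun a ha => ?_
        have h6 : ∑ b ∈ S p', (if P p a p' b then (1 : ℝ) else 0) =
            ∑ b ∈ S p', (if a ∈ O.com p ∧ b ∈ O.com p' ∧ P p a p' b then (1 : ℝ) else 0) := by
          refine sum_congr rfl fun b hb => ?_
          by_cases hp : P p a p' b
          · rw [if_pos hp, if_pos ⟨hS p ha, hS p' hb, hp⟩]
          · rw [if_neg hp, if_neg fun h => hp h.2.2]
        rw [h6]
        exact sum_le_sum_of_subset_of_nonneg (subset_univ _) fun b _ _ => by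
          split_ifs <;> norm_num
      exact h4.trans (sum_le_sum_of_subset_of_nonneg (subset_univ _) fun a _ _ =>
        sum_nonneg fun b _ => by split_ifs <;> norm_num)
    refine h3.trans ?_
    have h5 : ∑ p : V × V, ∑ p' : V × V, ∑ a : V, ∑ b : V,
          (if a ∈ O.com p ∧ b ∈ O.com p' ∧ P p a p' b then (1 : ℝ) else 0) =
        (((univ.filter (fun q : ((V × V) × V) × ((V × V) × V) => q.1.2 ∈ O.com q.1.1 ∧
          q.2.2 ∈ O.com q.2.1 ∧ ∃ e f, O.uses q.1.1 q.1.2 e ∧ O.uses q.2.1 q.2.2 f ∧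
          Ori.crs C e f)).card : ℕ) : ℝ) := by
      rw [card_filter]
      push_cast
      have h7 : ∑ p : V × V, ∑ p' : V × V, ∑ a : V, ∑ b : V,
          (if a ∈ O.com p ∧ b ∈ O.com p' ∧ P p a p' b then (1 : ℝ) else 0) =
          ∑ p : V × V, ∑ a : V, ∑ p' : V × V, ∑ b : V,
          (if a ∈ O.com p ∧ b ∈ O.com p' ∧ P p a p' b then (1 : ℝ) else 0) :=
        sum_congr rfl fun p _ => sum_comm
      rw [h7]
      simp only [Fintype.sum_prod_type, hP]
    rw [h5]
    exact_mod_cast h2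
  -- second term
  have T2 : ∑ p, ∑ p' ∈ univ.erase p, ∑ a ∈ S p, ∑ b ∈ S p',
        (if p' = p.swap then min (O.w p : ℝ) (O.w p') / (c p * c p') else 0) ≤
      Fintype.card X := by
    have h3 : ∀ p : V × V, ∑ p' ∈ univ.erase p, ∑ a ∈ S p, ∑ b ∈ S p',
        (if p' = p.swap then min (O.w p : ℝ) (O.w p') / (c p * c p') else 0) ≤ O.w p := by
      intro p
      refine (sum_le_sum_of_subset_of_nonneg (subset_univ _) fun p' _ _ =>
        sum_nonneg fun a _ => sum_nonneg fun b _ => by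
          split_ifs
          · exact hdiv0 p p'
          · exact le_rfl).trans ?_
      have h4 : ∑ p' : V × V, ∑ a ∈ S p, ∑ b ∈ S p',
          (if p' = p.swap then min (O.w p : ℝ) (O.w p') / (c p * c p') else 0) =
          ∑ p' : V × V, (if p' = p.swap then ((S p).card : ℝ) * ((S p').card : ℝ) *
            (min (O.w p : ℝ) (O.w p') / (c p * c p')) else 0) := by
        refine sum_congr rfl fun p' _ => ?_
        by_cases h : p' = p.swap
        · simp only [if_pos h, sum_const, nsmul_eq_mul]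
          ring
        · simp only [if_neg h, sum_const_zero]
      rw [h4, sum_ite_eq', if_pos (mem_univ _)]
      have h5 : ((S p).card : ℝ) * ((S p.swap).card : ℝ) ≤ c p * c p.swap :=
        mul_le_mul (hSc p) (hSc _) (by positivity) (hcpos p).le
      have h6 : ((S p).card : ℝ) * ((S p.swap).card : ℝ) *
            (min (O.w p : ℝ) (O.w p.swap) / (c p * c p.swap)) ≤
          (c p * c p.swap) * (min (O.w p : ℝ) (O.w p.swap) / (c p * c p.swap)) :=
        mul_le_mul_of_nonneg_right h5 (hdiv0 p p.swap)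
      have h7 : (c p * c p.swap) * (min (O.w p : ℝ) (O.w p.swap) / (c p * c p.swap)) =
          min (O.w p : ℝ) (O.w p.swap) := by
        have := (mul_pos (hcpos p) (hcpos p.swap)).ne'
        rw [mul_comm, div_mul_cancel₀ _ this]
      rw [h7] at h6
      exact h6.trans (min_le_left _ _)
    have h8 : ((∑ p, O.w p : ℕ) : ℝ) ≤ Fintype.card X := by
      rw [hsum]
      have : Ori.cnt (fun x => O.AB x) ≤ Fintype.card X := card_le_univ _
      exact_mod_cast this
    refine (sum_le_sum fun p _ => h3 p).trans ?_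
    push_cast at h8
    exact h8
  have := hsplit.trans (add_le_add T1 (add_le_add T2 T3))
  refine this.trans (le_of_eq ?_)
  ring

end Helper5.BD
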